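import Mathlib

/-! Almost sure convergence of the powers of a lazy symmetric averaging operator. -/

set_option linter.unusedSectionVars false

namespace Pool.Agent.H.MP_e8a7ad_pr

open MeasureTheory Filter Topology Finset
open scoped ENNReal

section erg
variable {X I : Type} [MeasurableSpace X] [Fintype I] [Nonempty I] {ν : Measure X}
  [IsProbabilityMeasure ν] (σ : I → X → X)

noncomputable def T (F : X → ℝ) : X → ℝ :=
  fun x => F x / 2 + (∑ c, F (σ c x)) / (2 * Fintype.card I)

structure BM (F : X → ℝ) (C : ℝ) : Prop where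
  m : Measurable F
  b : ∀ x, |F x| ≤ C

lemma BM.int {F : X → ℝ} {C : ℝ} (h : BM F C) : Integrable F ν :=
  Integrable.of_bound h.m.aestronglyMeasurable C (ae_of_all _ h.b)

lemma BM.mul {F G : X → ℝ} {C D : ℝ} (h : BM F C) (h' : BM G D) : BM (fun x => F x * G x) (C * D) :=
  ⟨h.m.mul h'.m, fun x => by
    rw [abs_mul]; exact mul_le_mul (h.b x) (h'.b x) (abs_nonneg _) ((abs_nonneg _).trans (h.b x))⟩

lemma BM.sub {F G : X → ℝ} {C D : ℝ} (h : BM F C) (h' : BM G D) : BM (fun x => F x - G x) (C + D) :=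
  ⟨h.m.sub h'.m, fun x => (abs_sub _ _).trans (add_le_add (h.b x) (h'.b x))⟩

lemma BM.sq {F : X → ℝ} {C : ℝ} (h : BM F C) : BM (fun x => F x ^ 2) (C * C) := by
  simpa [pow_two] using h.mul h

lemma BM.const (a : ℝ) : BM (fun _ : X => a) |a| := ⟨measurable_const, fun _ => le_rfl⟩

omit [MeasurableSpace X] in
lemma cardpos : (0 : ℝ) < Fintype.card I := by exact_mod_cast Fintype.card_pos

omit [MeasurableSpace X] in
lemma T_mono {F G : X → ℝ} (h : ∀ x, F x ≤ G x) (x : X) : T σ F x ≤ T σ G x := by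
  have := cardpos (I := I)
  unfold T
  gcongr <;> exact h _

omit [MeasurableSpace X] in
lemma T_aff (a b : ℝ) (F : X → ℝ) (x : X) : T σ (fun x => a + b * F x) x = a + b * T σ F x := by
  have := cardpos (I := I)
  simp only [T, sum_add_distrib, ← mul_sum, sum_const, card_univ, nsmul_eq_mul]
  field_simp; ring

omit [MeasurableSpace X] [Nonempty I] in
lemma T_sub (F G : X → ℝ) : T σ (fun x => F x - G x) = fun x => T σ F x - T σ G x := by
  funext x
  simp only [T, sum_sub_distrib]
  ring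

omit [MeasurableSpace X] in
lemma T_abs {F G : X → ℝ} (h : ∀ x, |F x| ≤ G x) (x : X) : |T σ F x| ≤ T σ G x := by
  have h1 := T_mono σ (fun x => (abs_le.1 (h x)).2) x
  have h2 := T_mono σ (F := fun x => 0 + (-1) * G x) (G := F)
    (fun x => by linarith [(abs_le.1 (h x)).1]) x
  rw [T_aff] at h2
  rw [abs_le]; constructor <;> linarith

omit [MeasurableSpace X] in
lemma T_const (a : ℝ) (x : X) : T σ (fun _ => a) x = a := by
  simpa using T_aff σ a 0 (fun _ => 0) x

omit [MeasurableSpace X] in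
lemma T_sq (F : X → ℝ) (x : X) :
    T σ F x ^ 2 + (T σ F x - F x) ^ 2 ≤ T σ (fun x => F x ^ 2) x := by
  have hc := cardpos (I := I)
  have h := sq_sum_le_card_mul_sum_sq (s := univ) (f := fun c => F (σ c x))
  rw [card_univ] at h
  unfold T
  set s := ∑ c, F (σ c x)
  set q := ∑ c, F (σ c x) ^ 2
  set n : ℝ := (Fintype.card I : ℝ)
  have : (F x / 2 + s / (2 * n)) ^ 2 + (F x / 2 + s / (2 * n) - F x) ^ 2 =
      F x ^ 2 / 2 + s ^ 2 / n / (2 * n) := by field_simp; ring
  rw [this]
  gcongr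
  rw [div_le_iff₀ hc]; linarith

variable {σ}

lemma BM.T (hσ : ∀ c, MeasurePreserving (σ c) ν ν) {F : X → ℝ} {C : ℝ} (h : BM F C) :
    BM (T σ F) C :=
  ⟨by
    have := h.m
    have := fun c => (hσ c).measurable
    unfold Pool.Agent.H.MP_e8a7ad_pr.T
    fun_prop, fun x => by simpa [T_const] using T_abs σ h.b x⟩

lemma BM.it (hσ : ∀ c, MeasurePreserving (σ c) ν ν) {F : X → ℝ} {C : ℝ} (h : BM F C) (n : ℕ) :
    BM ((Pool.Agent.H.MP_e8a7ad_pr.T σ)^[n] F) C := by
  induction n with
  | zero => exact h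
  | succ n ih => rw [Function.iterate_succ_apply']; exact ih.T hσ

lemma T_sym (hσ : ∀ c, MeasurePreserving (σ c) ν ν) (s : I ≃ I) (hs : ∀ c x, σ (s c) (σ c x) = x)
    {F G : X → ℝ} {C D : ℝ} (h : BM F C) (h' : BM G D) :
    ∫ x, T σ F x * G x ∂ν = ∫ x, F x * T σ G x ∂ν := by
  have b : ∀ {F : X → ℝ} {C : ℝ}, BM F C → ∀ c, BM (fun x => F (σ c x)) C :=
    fun h c => ⟨h.m.comp (hσ c).measurable, fun x => h.b _⟩
  have e1 : ∀ c, ∫ x, F (σ c x) * G x ∂ν = ∫ x, F x * G (σ (s c) x) ∂ν := fun c => by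
    have hm := (h.mul (b h' (s c))).m.aestronglyMeasurable (μ := ν.map (σ c))
    have := integral_map (hσ c).measurable.aemeasurable hm
    rw [(hσ c).map_eq] at this
    rw [this]
    simp only [hs]
  have e2 : ∀ x, T σ F x * G x = F x * G x / 2 + (∑ c, F (σ c x) * G x) / (2 * Fintype.card I) :=
    fun x => by rw [T, ← sum_mul]; ring
  have e3 : ∀ x, F x * T σ G x =
      F x * G x / 2 + (∑ c, F x * G (σ (s c) x)) / (2 * Fintype.card I) :=
    fun x => by rw [T, ← mul_sum, s.sum_comp fun c => G (σ c x)]; ring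
  simp only [e2, e3]
  rw [integral_add ((h.mul h').int.div_const _)
      ((integrable_finsetSum _ fun c _ => ((b h c).mul h').int).div_const _),
    integral_add ((h.mul h').int.div_const _)
      ((integrable_finsetSum _ fun c _ => (h.mul (b h' _)).int).div_const _),
    integral_div, integral_div, integral_div,
    integral_finsetSum _ fun c _ => ((b h c).mul h').int,
    integral_finsetSum _ fun c _ => (h.mul (b h' _)).int]
  simp only [e1]

lemma maxi (hσ : ∀ c, MeasurePreserving (σ c) ν ν) (s : I ≃ I) (hs : ∀ c x, σ (s c) (σ c x) = x)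
    {l B : ℝ} (hl : 0 ≤ l) (N : ℕ) : ∀ {G : X → ℝ}, BM G B → ∃ u : X → ℝ, BM u 1 ∧ (∀ x, 0 ≤ u x) ∧
      0 ≤ ∫ x, u x * (G x ^ 2 - l ^ 2) ∂ν ∧
      ∀ n < N, ∀ x, |(T σ)^[n] ((T σ)^[n] G) x| ≤ l + B * u x := by
  induction N with
  | zero => exact fun _ => ⟨fun _ => 0, by simpa using BM.const 0 |>.m |> fun h => ⟨h, by simp⟩,
      by simp, by simp, by simp⟩
  | succ N ih =>
    intro G hG
    obtain ⟨u, h1, h2, h3, h4⟩ := ih (hG.T hσ)
    have t1 := h1.T hσ
    have t0 : ∀ x, 0 ≤ T σ u x := fun x => by simpa [T_const] using T_mono σ h2 x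
    have t2 : ∀ x, T σ u x ≤ 1 := fun x => (abs_le.1 (t1.b x)).2
    have hw : BM (fun x => if l < |G x| then 1 else T σ u x) 1 :=
      ⟨Measurable.ite (measurableSet_lt measurable_const hG.m.abs) measurable_const t1.m,
        fun x => by split_ifs; simp; exact t1.b x⟩
    have g2 := hG.sq.sub (BM.const (l ^ 2))
    refine ⟨_, hw, fun x => by split_ifs; simp; exact t0 x, ?_, fun n hn x => ?_⟩
    · refine h3.trans (le_trans ?_ (((T_sym hσ s hs h1 g2).symm.le).trans ?_))
      · refine integral_mono (h1.mul ((hG.T hσ).sq.sub (BM.const (l ^ 2)))).int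
          (h1.mul (g2.T hσ)).int fun x => ?_
        refine mul_le_mul_of_nonneg_left ?_ (h2 x)
        simp only [T_sub, T_const]
        nlinarith [T_sq σ G x, sq_nonneg (T σ G x - G x)]
      · refine integral_mono (t1.mul g2).int (hw.mul g2).int fun x => ?_
        dsimp only
        split_ifs with hx
        · have : l ^ 2 ≤ G x ^ 2 := by rw [← sq_abs (G x)]; gcongr
          nlinarith [t2 x]
        · rfl
    · have hB : 0 ≤ B := (abs_nonneg _).trans (hG.b x)
      rcases n with _ | n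
      · simp only [Function.iterate_zero, id]
        split_ifs with hx
        · linarith [hG.b x]
        · nlinarith [t0 x, not_lt.1 hx]
      · rw [Function.iterate_succ_apply', Function.iterate_succ_apply]
        refine (T_abs σ (h4 n (by omega)) x).trans ?_
        rw [T_aff]
        split_ifs
        · nlinarith [t2 x]
        · rfl

lemma maxi' (hσ : ∀ c, MeasurePreserving (σ c) ν ν) (s : I ≃ I) (hs : ∀ c x, σ (s c) (σ c x) = x)
    {l B : ℝ} (hl : 0 < l) (hB : 0 ≤ B) {G : X → ℝ} (hG : BM G B) :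
    ∫⁻ x, ⨆ n, ENNReal.ofReal |(T σ)^[2 * n] G x| ∂ν ≤
      ENNReal.ofReal (l + B * ((∫ x, G x ^ 2 ∂ν) / l ^ 2)) := by
  have m : ∀ n, Measurable fun x => ENNReal.ofReal |(T σ)^[2 * n] G x| :=
    fun n => (hG.it hσ _).m.abs.ennreal_ofReal
  have e : ∀ x, ⨆ n, ENNReal.ofReal |(T σ)^[2 * n] G x| =
      ⨆ N, ⨆ n < N, ENNReal.ofReal |(T σ)^[2 * n] G x| := fun x => by
    rw [iSup_comm]
    exact iSup_congr fun n => le_antisymm (le_iSup₂_of_le (n + 1) (Nat.lt_succ_self n) le_rfl)
      (iSup₂_le fun _ _ => le_rfl)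
  simp only [e]
  rw [lintegral_iSup (fun N => by measurability)
    (fun a b hab x => biSup_mono fun n hn => lt_of_lt_of_le hn hab)]
  refine iSup_le fun N => ?_
  obtain ⟨u, h1, h2, h3, h4⟩ := maxi hσ s hs hl.le N hG
  have i1 : Integrable (fun x => l + B * u x) ν := (integrable_const _).add (h1.int.const_mul _)
  calc _ ≤ ∫⁻ x, ENNReal.ofReal (l + B * u x) ∂ν := by
        refine lintegral_mono fun x => iSup₂_le fun n hn => ENNReal.ofReal_le_ofReal ?_
        rw [two_mul, Function.iterate_add_apply]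
        exact h4 n hn x
    _ = ENNReal.ofReal (∫ x, (l + B * u x) ∂ν) :=
        (ofReal_integral_eq_lintegral_ofReal i1
          (ae_of_all _ fun x => by have := h2 x; positivity)).symm
    _ ≤ _ := by
        refine ENNReal.ofReal_le_ofReal ?_
        rw [integral_add (integrable_const _) (h1.int.const_mul _), integral_const_mul]
        simp only [integral_const, probReal_univ, smul_eq_mul, one_mul]
        gcongr
        rw [le_div_iff₀ (by positivity)]
        simp only [mul_sub] at h3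
        rw [integral_sub (h1.mul hG.sq).int (h1.int.mul_const _), integral_mul_const] at h3
        have : ∫ x, u x * G x ^ 2 ∂ν ≤ ∫ x, G x ^ 2 ∂ν :=
          integral_mono (h1.mul hG.sq).int hG.sq.int fun x => by
            have := (abs_le.1 (h1.b x)).2
            dsimp only
            nlinarith [sq_nonneg (G x)]
        linarith

omit [MeasurableSpace X] [Nonempty I] in
lemma it_sub (n : ℕ) (F G : X → ℝ) :
    (T σ)^[n] (fun x => F x - G x) = fun x => (T σ)^[n] F x - (T σ)^[n] G x := by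
  induction n with
  | zero => rfl
  | succ n ih => simp only [Function.iterate_succ_apply', ih, T_sub]

lemma seq_conv {h : ℕ → ℝ} {m : ℕ → ℕ} (hm : StrictMono m) {ε : ℕ → ℝ} (hε : Summable ε)
    (h1 : ∀ r n, |h (2 * n + 2 * m r) - h (2 * n + 2 * m (r + 1))| ≤ ε r)
    (h2 : Tendsto (fun n => h (n + 1) - h n) atTop (𝓝 0)) : ∃ l, Tendsto h atTop (𝓝 l) := by
  obtain ⟨l, hl⟩ := cauchySeq_tendsto_of_complete
    (cauchySeq_of_dist_le_of_summable (f := fun r => h (2 * m r)) ε
      (fun r => by simpa [Real.dist_eq] using h1 r 0) hε)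
  have hm2 : ∀ j, Tendsto (fun r => j + 2 * m r) atTop atTop := fun j =>
    tendsto_atTop_mono (fun r => by have := hm.id_le r; simp only [id] at this ⊢; omega) tendsto_id
  have a1 : ∀ j, Tendsto (fun r => h (j + 2 * m r)) atTop (𝓝 l) := by
    intro j
    induction j with
    | zero => simpa using hl
    | succ j ih =>
      have := (h2.comp (hm2 j)).add ih
      simp only [Function.comp, sub_add_cancel, zero_add] at this
      simpa only [Nat.add_right_comm j 1] using this
  have a2 : ∀ r n, dist (h (2 * n + 2 * m r)) l ≤ ∑' k, ε (r + k) := fun r n =>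
    dist_le_tsum_of_dist_le_of_tendsto (f := fun r => h (2 * n + 2 * m r)) ε
      (fun r => by simpa [Real.dist_eq] using h1 r n) hε (a1 _) r
  have a3 : Tendsto (fun n => h (2 * n)) atTop (𝓝 l) := by
    rw [Metric.tendsto_atTop]
    intro δ hδ
    obtain ⟨r, hr⟩ := ((tendsto_sum_nat_add ε).eventually_lt_const hδ).exists
    refine ⟨m r, fun n hn => ?_⟩
    have := a2 r (n - m r)
    rw [show 2 * (n - m r) + 2 * m r = 2 * n by omega] at this
    simp only [add_comm r] at this
    exact this.trans_lt hr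
  have a4 : Tendsto (fun j : ℕ => j / 2) atTop atTop := (Nat.tendsto_div_const_atTop two_ne_zero)
  have a5 : Tendsto (fun j : ℕ => 2 * (j / 2)) atTop atTop :=
    tendsto_atTop_mono (fun j => by omega) a4
  have a6 : Tendsto (fun j => h j - h (2 * (j / 2))) atTop (𝓝 0) := by
    refine squeeze_zero_norm (fun j => ?_) (by simpa using (h2.comp a5).norm)
    rcases Nat.even_or_odd' j with ⟨k, rfl | rfl⟩
    · rw [show 2 * (2 * k / 2) = 2 * k by omega]; simp
    · rw [show 2 * ((2 * k + 1) / 2) = 2 * k by omega]; simp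
  exact ⟨l, by simpa using a6.add (a3.comp a4)⟩

theorem rota (hσ : ∀ c, MeasurePreserving (σ c) ν ν) (s : I ≃ I) (hs : ∀ c x, σ (s c) (σ c x) = x)
    {F : X → ℝ} {M : ℝ} (hM : 0 ≤ M) (hF : BM F M) :
    ∀ᵐ x ∂ν, ∃ l, Tendsto (fun j => (T σ)^[j] F x) atTop (𝓝 l) := by
  set h : ℕ → X → ℝ := fun j => (T σ)^[j] F with hh
  have hb : ∀ j, BM (h j) M := hF.it hσ
  have hsucc : ∀ j, h (j + 1) = T σ (h j) := fun j => Function.iterate_succ_apply' _ _ _
  set b : ℕ → ℝ := fun j => ∫ x, h j x ^ 2 ∂ν with hbb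
  have b0 : ∀ j, 0 ≤ b j := fun j => integral_nonneg fun x => sq_nonneg _
  have b1 : ∀ j, b (j + 1) + ∫ x, (h (j + 1) x - h j x) ^ 2 ∂ν ≤ b j := fun j => by
    rw [← integral_add (hb _).sq.int ((hb _).sub (hb _)).sq.int]
    have e := T_sym hσ s hs (hb j).sq (BM.const 1)
    simp only [mul_one, T_const] at e
    rw [hbb]; dsimp only
    rw [← e]
    refine integral_mono ((hb _).sq.int.add ((hb _).sub (hb _)).sq.int) ((hb j).sq.T hσ).int
      fun x => ?_
    rw [hsucc]; exact T_sq σ _ x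
  have c0 : ∀ j, 0 ≤ ∫ x, (h (j + 1) x - h j x) ^ 2 ∂ν :=
    fun j => integral_nonneg fun x => sq_nonneg _
  have anti : Antitone b := antitone_nat_of_succ_le fun j => by linarith [b1 j, c0 j]
  have sm : Summable fun j => ∫ x, (h (j + 1) x - h j x) ^ 2 ∂ν := by
    refine summable_of_sum_range_le (c := b 0) c0 fun n => ?_
    have : ∑ i ∈ range n, ∫ x, (h (i + 1) x - h i x) ^ 2 ∂ν ≤ b 0 - b n := by
      induction n with
      | zero => simp
      | succ n ih => rw [sum_range_succ]; linarith [b1 n]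
    linarith [b0 n]
  have inc : ∀ᵐ x ∂ν, Tendsto (fun j => h (j + 1) x - h j x) atTop (𝓝 0) := by
    have mm : ∀ j, Measurable fun x => ENNReal.ofReal ((h (j + 1) x - h j x) ^ 2) :=
      fun j => ((hb _).sub (hb _)).sq.m.ennreal_ofReal
    have := ae_lt_top (μ := ν) (Measurable.tsum mm) (by
      rw [lintegral_tsum fun j => (mm j).aemeasurable]
      simp only [← ofReal_integral_eq_lintegral_ofReal ((hb _).sub (hb _)).sq.int
        (ae_of_all _ fun x => sq_nonneg _)]
      rw [← ENNReal.ofReal_tsum_of_nonneg c0 sm]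
      exact ENNReal.ofReal_ne_top)
    filter_upwards [this] with x hx
    have h1 := (ENNReal.summable_toReal hx.ne).tendsto_atTop_zero
    simp only [ENNReal.toReal_ofReal (sq_nonneg _)] at h1
    have h2 := h1.sqrt
    simp only [Real.sqrt_sq_eq_abs, Real.sqrt_zero] at h2
    exact (tendsto_zero_iff_abs_tendsto_zero _).2 h2
  have shift : ∀ j n m, ∫ x, h (n + j) x * h m x ∂ν = ∫ x, h n x * h (m + j) x ∂ν := by
    intro j
    induction j with
    | zero => simp
    | succ j ih =>
      intro n m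
      rw [← add_assoc, hsucc, T_sym hσ s hs (hb _) (hb _), ← hsucc, ih, add_right_comm m 1 j,
        add_assoc m]
  obtain ⟨L, hL⟩ : ∃ L, Tendsto b atTop (𝓝 L) :=
    ⟨_, tendsto_atTop_ciInf anti ⟨0, by rintro _ ⟨j, rfl⟩; exact b0 j⟩⟩
  have bL : ∀ j, L ≤ b j := anti.le_of_tendsto hL
  obtain ⟨m, hm, hm'⟩ := extraction_forall_of_eventually (P := fun r n => b n < L + (1 / 8) ^ r)
    fun r => hL.eventually_lt_const (by have : (0 : ℝ) < (1 / 8) ^ r := by positivity
                                        linarith)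
  have key : ∀ r, ∫ x, (h (2 * m r) x - h (2 * m (r + 1)) x) ^ 2 ∂ν ≤ (1 / 8) ^ r := fun r => by
    obtain ⟨j, hj⟩ := Nat.exists_eq_add_of_le (hm.monotone (Nat.le_add_right r 1))
    have e1 : ∀ x, (h (2 * m r) x - h (2 * m (r + 1)) x) ^ 2 = (h (2 * m r) x ^ 2 -
      h (2 * m r) x * h (2 * m (r + 1)) x * 2) + h (2 * m (r + 1)) x ^ 2 := fun x => by ring
    simp only [e1]
    rw [integral_add (f := fun x => h (2 * m r) x ^ 2 - h (2 * m r) x * h (2 * m (r + 1)) x * 2)
        ((hb _).sq.int.sub (((hb _).mul (hb _)).int.mul_const _)) (hb _).sq.int,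
      integral_sub (hb _).sq.int (((hb _).mul (hb _)).int.mul_const _), integral_mul_const]
    have e2 := shift j (2 * m r) (2 * m r + j)
    rw [show 2 * m r + j + j = 2 * m (r + 1) by omega] at e2
    simp only [← pow_two] at e2
    have p1 : b (2 * m r) ≤ b (m r) := anti (by omega)
    have p2 : b (2 * m (r + 1)) ≤ b (2 * m r + j) := anti (by omega)
    have p3 := bL (2 * m r + j)
    have p4 := hm' r
    rw [← e2]
    change b _ - b _ * 2 + b _ ≤ _
    linarith
  have mx : ∀ r, ∫⁻ x, ⨆ n, ENNReal.ofReal |h (2 * n + 2 * m r) x - h (2 * n + 2 * m (r + 1)) x| ∂ν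
      ≤ ENNReal.ofReal ((1 + (M + M)) * (1 / 2) ^ r) := fun r => by
    have := maxi' hσ s hs (l := (1 / 2) ^ r) (by positivity) (by positivity)
      ((hb (2 * m r)).sub (hb (2 * m (r + 1))))
    simp only [it_sub, hh, ← Function.iterate_add_apply] at this
    refine this.trans (ENNReal.ofReal_le_ofReal ?_)
    rw [add_mul 1, one_mul]
    gcongr
    rw [div_le_iff₀ (by positivity), ← pow_succ' _ 2, ← pow_mul, mul_comm r, pow_mul]
    exact (key r).trans (by norm_num)
  have mm : ∀ r, Measurable fun x =>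
      ⨆ n, ENNReal.ofReal |h (2 * n + 2 * m r) x - h (2 * n + 2 * m (r + 1)) x| :=
    fun r => Measurable.iSup fun n => ((hb _).sub (hb _)).m.abs.ennreal_ofReal
  have := ae_lt_top (μ := ν) (Measurable.tsum mm) (by
    rw [lintegral_tsum fun j => (mm j).aemeasurable]
    refine ne_top_of_le_ne_top ?_ (ENNReal.tsum_le_tsum mx)
    rw [← ENNReal.ofReal_tsum_of_nonneg (fun r => by positivity)
      (summable_geometric_two.mul_left _)]
    exact ENNReal.ofReal_ne_top)
  filter_upwards [this, inc] with x hx hx'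
  refine seq_conv (h := fun j => h j x) hm (ENNReal.summable_toReal hx.ne) (fun r n => ?_) hx'
  refine (ENNReal.ofReal_le_iff_le_toReal (ENNReal.ne_top_of_tsum_ne_top hx.ne r)).1 ?_
  exact le_iSup (fun n => ENNReal.ofReal |h (2 * n + 2 * m r) x - h (2 * n + 2 * m (r + 1)) x|) n

end erg

end Pool.Agent.H.MP_e8a7ad_pr
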