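import Mathlib
import Pool.Agent.H.MP_e8a7ad_pr.A

/-! One step of the slotted averaging dynamics on the lattice. -/

namespace Pool.Agent.H.MP_e8a7ad_pr

open MeasureTheory ProbabilityTheory Filter Topology Finset Function
open scoped ENNReal

abbrev V (d : ℕ) := Fin d → ℤ
abbrev E (d : ℕ) := V d × Fin d

variable {d : ℕ}

def ee (i : Fin d) : V d := Pi.single i 1
def dir (c : Fin d × Bool) : V d := if c.2 then ee c.1 else -ee c.1
def ed (x : V d) (c : Fin d × Bool) : E d := (if c.2 then x else x - ee c.1, c.1)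
def gr (g : V d → ℝ) (e : E d) : ℝ := g (e.1 + ee e.2) - g e.1

noncomputable def step (a : E d → ℝ) (g : V d → ℝ) : V d → ℝ :=
  fun x => g x + (1 / 2) * ∑ c, a (ed x c) * (g (x + dir c) - g x)

noncomputable def Q (α : ℝ) : (V d → ℝ) → V d → ℝ := step fun _ => α

def D (g : V d → ℝ) (x : V d) : ℝ := ∑ c, (g (x + dir c) - g x) ^ 2

lemma ee_ne (i : Fin d) : ee i ≠ 0 := fun h => by simpa [ee] using congrFun h i

lemma sum_c (F : Fin d × Bool → ℝ) : ∑ c, F c = ∑ i, (F (i, true) + F (i, false)) := by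
  simp [Fintype.sum_prod_type]

lemma step_eq (a : E d → ℝ) (g : V d → ℝ) (x : V d) : step a g x =
    g x + (1 / 2) * ∑ i, (a (x, i) * gr g (x, i) - a (x - ee i, i) * gr g (x - ee i, i)) := by
  simp only [step, sum_c, ed, dir, gr, if_true, Bool.false_eq_true, if_false, sub_add_cancel,
    ← sub_eq_add_neg]
  congr 2
  exact sum_congr rfl fun i _ => by ring

lemma D_eq (g : V d → ℝ) (x : V d) : D g x = ∑ i, (gr g (x, i) ^ 2 + gr g (x - ee i, i) ^ 2) := by
  simp only [D, sum_c, dir, gr, if_true, Bool.false_eq_true, if_false, sub_add_cancel,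
    ← sub_eq_add_neg]
  exact sum_congr rfl fun i _ => by ring

lemma fs_sh {q : V d → ℝ} (h : q.HasFiniteSupport) (y : V d) :
    HasFiniteSupport fun x => q (x + y) := h.fun_comp_of_injective (add_left_injective y)

lemma fs_gr1 {q : V d → ℝ} (h : q.HasFiniteSupport) (i : Fin d) :
    HasFiniteSupport fun x => gr q (x, i) := (fs_sh h (ee i)).fun_sub h

lemma fs_gr {q : V d → ℝ} (h : q.HasFiniteSupport) : (gr q).HasFiniteSupport := by
  refine ((Set.finite_iUnion fun i => fs_gr1 h i).prod (Set.finite_univ (α := Fin d))).subset ?_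
  rintro ⟨x, i⟩ hx
  exact ⟨Set.mem_iUnion.2 ⟨i, hx⟩, trivial⟩

lemma fs_step {q : V d → ℝ} (h : q.HasFiniteSupport) (a : E d → ℝ) :
    (step a q).HasFiniteSupport :=
  h.fun_add (HasFiniteSupport.fun_mul_right _ (HasFiniteSupport.sum
    (fun _ => HasFiniteSupport.fun_mul_right _ ((fs_sh h _).fun_sub h)) _))

lemma sbp {q g : V d → ℝ} (h : q.HasFiniteSupport ∨ g.HasFiniteSupport) (a : E d → ℝ) :
    ∑' x, q x * step a g x = ∑' x, q x * g x - (1 / 2) * ∑' e, a e * (gr q e * gr g e) := by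
  have s0 : Summable fun x => q x * g x := summable_of_hasFiniteSupport
    (h.elim (fun h => h.fun_mul_left _) fun h => h.fun_mul_right _)
  have s1 : ∀ i y, Summable fun x => q (x + y) * (a (x, i) * gr g (x, i)) := fun i y =>
    summable_of_hasFiniteSupport (h.elim (fun h => (fs_sh h y).fun_mul_left _)
      fun h => ((fs_gr1 h i).fun_mul_right _).fun_mul_right _)
  have s2 : ∀ i, Summable fun x => q x * (a (x, i) * gr g (x, i)) := fun i => by
    simpa using s1 i 0
  have s3 : ∀ i, Summable fun x => q x * (a (x - ee i, i) * gr g (x - ee i, i)) := fun i => by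
    rw [← (Equiv.addRight (ee i)).summable_iff]
    simpa [Function.comp_def] using s1 i (ee i)
  have s4 : Summable fun e => a e * (gr q e * gr g e) := summable_of_hasFiniteSupport
    (h.elim (fun h => ((fs_gr h).fun_mul_left _).fun_mul_right _)
      fun h => ((fs_gr h).fun_mul_right _).fun_mul_right _)
  have e1 : ∀ x, q x * step a g x = q x * g x + (1 / 2) * ∑ i, (q x * (a (x, i) * gr g (x, i)) -
      q x * (a (x - ee i, i) * gr g (x - ee i, i))) := fun x => by
    simp only [step_eq, ← mul_sub, ← mul_sum]; ring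
  have e2 : ∀ i, ∑' x, q x * (a (x - ee i, i) * gr g (x - ee i, i)) =
      ∑' x, q (x + ee i) * (a (x, i) * gr g (x, i)) := fun i => by
    rw [← (Equiv.addRight (ee i)).tsum_eq]; simp
  have e3 : ∀ x i, a (x, i) * (gr q (x, i) * gr g (x, i)) =
      q (x + ee i) * (a (x, i) * gr g (x, i)) - q x * (a (x, i) * gr g (x, i)) := fun x i => by
    rw [← sub_mul]; simp only [gr]; ring
  simp only [e1]
  rw [s0.tsum_add ((summable_sum fun i _ => (s2 i).sub (s3 i)).mul_left _), tsum_mul_left,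
    Summable.tsum_finsetSum fun i _ => (s2 i).sub (s3 i), s4.tsum_prod]
  simp only [tsum_fintype, e3]
  rw [Summable.tsum_finsetSum fun i _ => (s1 i _).sub (s2 i), sub_eq_add_neg, ← mul_neg,
    ← sum_neg_distrib]
  congr 2
  refine sum_congr rfl fun i _ => ?_
  rw [(s2 i).tsum_sub (s3 i), (s1 i _).tsum_sub (s2 i), e2]; ring

lemma dual {q : V d → ℝ} (h : q.HasFiniteSupport) (α : ℝ) (g : V d → ℝ) :
    ∑' x, q x * Q α g x = ∑' x, Q α q x * g x := by
  have := sbp (q := g) (g := q) (Or.inr h) fun _ => α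
  simp only [mul_comm (g _), mul_comm (gr g _)] at this
  rw [Q, sbp (Or.inl h), this]

noncomputable def qq (α : ℝ) (v : V d) (m : ℕ) : V d → ℝ := (Q α)^[m] (Pi.single v 1)

lemma fs_single (v : V d) : HasFiniteSupport (Pi.single v (1 : ℝ) : V d → ℝ) :=
  (Set.finite_singleton v).subset Pi.support_single_subset

lemma fs_qq (α : ℝ) (v : V d) (m : ℕ) : (qq α v m).HasFiniteSupport := by
  induction m with
  | zero => exact fs_single v
  | succ m ih => rw [qq, iterate_succ_apply']; exact fs_step ih _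

lemma ip_single (v : V d) (g : V d → ℝ) : ∑' x, (Pi.single v (1 : ℝ) : V d → ℝ) x * g x = g v := by
  rw [tsum_eq_single v fun x hx => by simp [hx]]; simp

lemma ip_qq (α : ℝ) (v : V d) (m : ℕ) : ∀ g : V d → ℝ, ∑' x, qq α v m x * g x = (Q α)^[m] g v := by
  induction m with
  | zero => exact ip_single v
  | succ m ih =>
    intro g
    rw [iterate_succ_apply, ← ih, dual (fs_qq α v m), qq, qq, iterate_succ_apply']

lemma Q_sq {α : ℝ} (h0 : 0 ≤ α) (h1 : d * α ≤ 1 / 4) (g : V d → ℝ) (x : V d) :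
    Q α g x ^ 2 + 3 * α / 8 * D g x ≤ Q α (fun x => g x ^ 2) x := by
  have h := sq_sum_le_card_mul_sum_sq (s := univ) (f := fun c => g (x + dir c) - g x)
  have e : ∑ c, (g (x + dir c) ^ 2 - g x ^ 2) =
      D g x + 2 * g x * ∑ c, (g (x + dir c) - g x) := by
    rw [D, mul_sum, ← sum_add_distrib]; exact sum_congr rfl fun c _ => by ring
  have hD : 0 ≤ D g x := sum_nonneg fun _ _ => sq_nonneg _
  simp only [card_univ, Fintype.card_prod, Fintype.card_fin, Fintype.card_bool, Nat.cast_mul,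
    Nat.cast_ofNat] at h
  simp only [Q, step, ← mul_sum, e]
  change _ ≤ _ * D g x at h
  generalize ∑ c, (g (x + dir c) - g x) = s at *
  have a1 := mul_le_mul_of_nonneg_left h (mul_nonneg h0 h0)
  have a2 := mul_le_mul_of_nonneg_right h1 (mul_nonneg h0 hD)
  nlinarith

lemma q_diss {α : ℝ} (h0 : 0 ≤ α) (h1 : d * α ≤ 1 / 4) {q : V d → ℝ} (h : q.HasFiniteSupport) :
    ∑' x, Q α q x ^ 2 + 3 * α / 8 * ∑' e, gr q e ^ 2 ≤ ∑' x, q x ^ 2 := by
  have f2 : ∀ {ι : Type} {q : ι → ℝ}, q.HasFiniteSupport → HasFiniteSupport fun x => q x ^ 2 :=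
    fun h => by simpa only [pow_two] using h.fun_mul_left _
  have e := sbp (q := fun _ => 1) (Or.inr (f2 h)) fun _ => α
  simp only [gr, sub_self, zero_mul, mul_zero, tsum_zero, sub_zero, one_mul] at e
  have s1 := summable_of_hasFiniteSupport (L := SummationFilter.unconditional _) (f2 (fs_gr h))
  have s2 : Summable fun x => Q α q x ^ 2 := summable_of_hasFiniteSupport (f2 (fs_step h _))
  rw [← e, s1.tsum_prod, ← tsum_mul_left, ← s2.tsum_add (s1.prod.mul_left _)]
  refine Summable.tsum_le_tsum (fun x => le_trans ?_ (Q_sq h0 h1 q x)) (s2.add (s1.prod.mul_left _))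
    (summable_of_hasFiniteSupport (fs_step (f2 h) _))
  rw [tsum_fintype, D_eq]
  gcongr with i
  exact le_add_of_nonneg_right (sq_nonneg _)

lemma q_sum {α : ℝ} (h0 : 0 < α) (h1 : d * α ≤ 1 / 4) (v : V d) :
    ∑' m, ENNReal.ofReal (∑' e, gr (qq α v m) e ^ 2) ≤ ENNReal.ofReal (3 / α) := by
  have p : ∀ m, 0 ≤ ∑' e, gr (qq α v m) e ^ 2 := fun m => tsum_nonneg fun _ => sq_nonneg _
  have a : ∀ n, ∑' x, qq α v n x ^ 2 + 3 * α / 8 * ∑ m ∈ range n, ∑' e, gr (qq α v m) e ^ 2 ≤ 1 := by
    intro n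
    induction n with
    | zero => simp only [qq, iterate_zero, id, pow_two, ip_single]; simp
    | succ n ih =>
      have := q_diss h0.le h1 (fs_qq α v n)
      rw [sum_range_succ, qq, iterate_succ_apply', ← qq]
      linarith
  refine ENNReal.tsum_le_of_sum_range_le fun n => ?_
  rw [← ENNReal.ofReal_sum_of_nonneg fun m _ => p m]
  refine ENNReal.ofReal_le_ofReal ?_
  have := a n
  have b : 0 ≤ ∑' x, qq α v n x ^ 2 := tsum_nonneg fun _ => sq_nonneg _
  have c : 0 ≤ ∑ m ∈ range n, ∑' e, gr (qq α v m) e ^ 2 := sum_nonneg fun m _ => p m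
  rw [le_div_iff₀ h0]
  nlinarith

lemma single_D (g : V d → ℝ) (v : V d) :
    ∑' e, gr (Pi.single v (1 : ℝ) : V d → ℝ) e ^ 2 * gr g e ^ 2 = D g v := by
  have := sbp (q := Pi.single v 1) (g := Pi.single v 1) (Or.inl (fs_single v)) fun e => gr g e ^ 2
  rw [ip_single, ip_single, step_eq] at this
  have e1 : ∀ i, gr (Pi.single v (1 : ℝ) : V d → ℝ) (v, i) = -1 := fun i => by simp [gr, ee_ne]
  have e2 : ∀ i, gr (Pi.single v (1 : ℝ) : V d → ℝ) (v - ee i, i) = 1 := fun i => by
    simp [gr, ee_ne]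
  simp only [e1, e2, ← pow_two, mul_comm (gr g _ ^ 2)] at this
  rw [D_eq]
  have e3 : ∑ i, (-1 * gr g (v, i) ^ 2 - 1 * gr g (v - ee i, i) ^ 2) =
      -∑ i, (gr g (v, i) ^ 2 + gr g (v - ee i, i) ^ 2) := by
    rw [← sum_neg_distrib]; exact sum_congr rfl fun i _ => by ring
  linarith

def zt (n : ℕ) : ℝ := if n = 0 then 0 else 1

section one
variable {ι : Type} (ρ : Measure ℕ) [IsProbabilityMeasure ρ]

lemma onestep (s : Finset ι) (X : ι → ℝ) (c : ℝ) :
    ∫⁻ u, ENNReal.ofReal ((c + ∑ e ∈ s, zt (u e) * X e) ^ 2) ∂(Measure.infinitePi fun _ : ι => ρ) ≤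
      ENNReal.ofReal ((c + ∑ e ∈ s, ρ.real {0}ᶜ * X e) ^ 2 + ρ.real {0}ᶜ * ∑ e ∈ s, X e ^ 2) := by
  set π := Measure.infinitePi fun _ : ι => ρ
  have mz : Measurable zt := measurable_from_top
  have bz : ∀ n, |zt n| ≤ 1 := fun n => by unfold zt; split_ifs <;> simp
  have l2 : ∀ e, MemLp (fun u : ι → ℕ => zt (u e) * X e) 2 π := fun e =>
    (MemLp.of_bound (mz.comp (measurable_pi_apply e)).aestronglyMeasurable 1
      (ae_of_all _ fun u => bz _)).mul_const _
  have iz : ∀ e, ∫ u, zt (u e) ∂π = ρ.real {0}ᶜ := fun e => by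
    rw [← (measurePreserving_eval_infinitePi (fun _ : ι => ρ) e).map_eq,
      ← integral_map (φ := fun u : ι → ℕ => u e) (measurable_pi_apply e).aemeasurable
        mz.aestronglyMeasurable,
      (measurePreserving_eval_infinitePi (fun _ : ι => ρ) e).map_eq,
      ← integral_indicator_one (by trivial)]
    refine integral_congr_ae (ae_of_all _ fun n => ?_)
    by_cases h : n = 0 <;> simp [zt, h]
  have ind : iIndepFun (fun e (u : ι → ℕ) => zt (u e) * X e) π :=
    iIndepFun_infinitePi (X := fun e n => zt n * X e) fun _ => measurable_from_top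
  have v1 := IndepFun.variance_sum (s := s) (fun e _ => l2 e) fun i _ j _ hij => ind.indepFun hij
  have l3 : MemLp (fun u : ι → ℕ => ∑ e ∈ s, zt (u e) * X e) 2 π := memLp_finsetSum _ fun e _ => l2 e
  have l4 : MemLp (fun u : ι → ℕ => c + ∑ e ∈ s, zt (u e) * X e) 2 π := (memLp_const c).add l3
  rw [← ofReal_integral_eq_lintegral_ofReal l4.integrable_sq (ae_of_all _ fun u => sq_nonneg _)]
  refine ENNReal.ofReal_le_ofReal ?_
  have v2 := variance_eq_sub l4
  rw [variance_const_add l3.aestronglyMeasurable] at v2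
  have v3 : (∑ e ∈ s, fun u : ι → ℕ => zt (u e) * X e) = fun u => ∑ e ∈ s, zt (u e) * X e := by
    funext u; simp
  rw [v3] at v1
  have v4 : ∫ u, (c + ∑ e ∈ s, zt (u e) * X e) ∂π = c + ∑ e ∈ s, ρ.real {0}ᶜ * X e := by
    rw [integral_add (integrable_const _) (l3.integrable one_le_two),
      integral_finsetSum _ fun e _ => (l2 e).integrable one_le_two]
    simp [integral_mul_const, iz]
  have v5 : ∑ e ∈ s, Var[fun u : ι → ℕ => zt (u e) * X e; π] ≤ ρ.real {0}ᶜ * ∑ e ∈ s, X e ^ 2 := by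
    rw [mul_sum]
    refine sum_le_sum fun e _ => (variance_le_expectation_sq (l2 e).aestronglyMeasurable).trans ?_
    have : ∀ u : ι → ℕ, ((fun u : ι → ℕ => zt (u e) * X e) ^ 2) u = zt (u e) * X e ^ 2 := fun u => by
      simp only [Pi.pow_apply, zt]; split_ifs <;> simp
    simp only [this, integral_mul_const, iz, le_refl]
  simp only [Pi.pow_apply] at v2
  rw [v4] at v2
  linarith

lemma onestep' {q : V d → ℝ} (h : q.HasFiniteSupport) (g : V d → ℝ) (c : ℝ) :
    ∫⁻ u, ENNReal.ofReal ((∑' x, q x * step (fun e => zt (u e)) g x - c) ^ 2)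
      ∂(Measure.infinitePi fun _ : E d => ρ) ≤
      ENNReal.ofReal ((∑' x, q x * Q (ρ.real {0}ᶜ) g x - c) ^ 2 +
        ρ.real {0}ᶜ / 4 * ∑' e, gr q e ^ 2 * gr g e ^ 2) := by
  have hs : ∀ e ∉ (fs_gr h).toFinset, gr q e = 0 := fun e he => by simpa using he
  have := onestep ρ (fs_gr h).toFinset (fun e => -(1 / 2) * (gr q e * gr g e)) (∑' x, q x * g x - c)
  have e1 : ∀ a : E d → ℝ, ∑' x, q x * step a g x - c = ∑' x, q x * g x - c +
      ∑ e ∈ (fs_gr h).toFinset, a e * (-(1 / 2) * (gr q e * gr g e)) := fun a => by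
    rw [sbp (Or.inl h), tsum_eq_sum (s := (fs_gr h).toFinset) fun e he => by simp [hs e he], mul_sum]
    rw [sub_right_comm, sub_eq_add_neg, ← sum_neg_distrib]
    congr 1
    exact sum_congr rfl fun e _ => by ring
  simp only [Q, e1]
  refine this.trans (le_of_eq ?_)
  rw [tsum_eq_sum (s := (fs_gr h).toFinset) fun e he => by simp [hs e he], mul_sum, mul_sum]
  congr 2
  exact sum_congr rfl fun e _ => by ring

end one

lemma mix {α l δ : ℝ} (h0 : 0 ≤ α) (h1 : d * α ≤ 1 / 4) (hd : 1 ≤ d) (v : V d) (k : ℕ) :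
    ∀ (g : V d → ℝ) (B : ℝ), (∀ j, |(Q (1 / (2 * d)))^[j] g v - l| ≤ δ + B * (1 / 2) ^ j) →
      |(Q α)^[k] g v - l| ≤ δ + B * (1 - d * α) ^ k := by
  have hd' : (0 : ℝ) < d := by exact_mod_cast hd
  have lin : ∀ (j : ℕ) (a b : ℝ) (g h : V d → ℝ), (Q (1 / (2 * d)))^[j] (fun x => a * g x + b * h x) =
      fun x => a * (Q (1 / (2 * d)))^[j] g x + b * (Q (1 / (2 * d)))^[j] h x := by
    intro j a b g h
    induction j with
    | zero => rfl
    | succ j ih =>
      funext x
      simp only [iterate_succ_apply', ih]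
      generalize (Q (1 / (2 * d)))^[j] g = g'
      generalize (Q (1 / (2 * d)))^[j] h = h'
      simp only [Q, step, ← mul_sum, sum_sub_distrib, sum_add_distrib]
      ring
  induction k with
  | zero => intro g B h; simpa using h 0
  | succ k ih =>
    intro g B h
    have e : Q α g = fun x => (1 - 2 * d * α) * g x + 2 * d * α * Q (1 / (2 * d)) g x := by
      funext x
      simp only [Q, step, ← mul_sum]
      field_simp; ring
    have := ih (Q α g) (B * (1 - d * α)) fun j => by
      rw [e, lin]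
      dsimp only
      rw [← iterate_succ_apply]
      have a1 := abs_le.1 (h j)
      have a2 := abs_le.1 (h (j + 1))
      rw [pow_succ] at a2
      have b1 : 0 ≤ 1 - 2 * d * α := by linarith
      have b2 : 0 ≤ 2 * d * α := by positivity
      have c1 := mul_le_mul_of_nonneg_left a1.1 b1
      have c2 := mul_le_mul_of_nonneg_left a1.2 b1
      have c3 := mul_le_mul_of_nonneg_left a2.1 b2
      have c4 := mul_le_mul_of_nonneg_left a2.2 b2
      rw [abs_le]
      constructor <;> nlinarith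
    rw [iterate_succ_apply, pow_succ', ← mul_assoc]
    exact this

end Pool.Agent.H.MP_e8a7ad_pr
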