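import Mathlib
import Pool.Agent.H.MP_e8a7ad_pr.B
import Pool.Agent.Lib.helper3.MC

/-! Estimates for the slotted dynamics on the canonical space. -/

set_option linter.unusedSectionVars false

namespace Pool.Agent.H.MP_e8a7ad_pr

open MeasureTheory ProbabilityTheory Filter Topology Finset Function
open scoped ENNReal

variable {d : ℕ}

abbrev W (d : ℕ) := (V d → ℝ) × (ℕ → E d → ℕ)

noncomputable def F : ℕ → W d → V d → ℝ
  | 0, ω => ω.1
  | k + 1, ω => step (fun e => zt (ω.2 k e)) (F k ω)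

lemma m_step {X : Type} [MeasurableSpace X] {a : X → E d → ℝ} {g : X → V d → ℝ} (ha : Measurable a)
    (hg : Measurable g) : Measurable fun x => step (a x) (g x) := by
  unfold step
  fun_prop

lemma mzt : Measurable zt := measurable_from_top

lemma mF (k : ℕ) : Measurable (F (d := d) k) := by
  induction k with
  | zero => exact measurable_fst
  | succ k ih => exact m_step (by have := mzt; fun_prop) ih

lemma mQ (α : ℝ) (m : ℕ) : Measurable ((Q (d := d) α)^[m]) :=
  Measurable.iterate (m_step measurable_const measurable_id) m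

lemma depF (k : ℕ) (g : V d → ℝ) (η η' : ℕ → E d → ℕ) (h : ∀ i < k, η i = η' i) :
    F k (g, η) = F k (g, η') := by
  induction k with
  | zero => rfl
  | succ k ih => simp only [F]; rw [ih fun i hi => h i (by omega), h k (by omega)]

def Θ (a : V d) (ω : W d) : W d := (fun x => ω.1 (x + a), fun k e => ω.2 k (e.1 + a, e.2))

lemma ed_add (x a : V d) (c : Fin d × Bool) : ed (x + a) c = ((ed x c).1 + a, (ed x c).2) := by
  unfold ed; split_ifs <;> simp [add_sub_right_comm]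

lemma F_Θ (a : V d) (ω : W d) (k : ℕ) : F k (Θ a ω) = fun x => F k ω (x + a) := by
  induction k with
  | zero => rfl
  | succ k ih =>
    funext x
    simp only [F, ih, step, ed_add, add_right_comm x a]
    rfl

variable (ν : Measure (V d → ℝ)) [IsProbabilityMeasure ν] (ρ : Measure ℕ) [IsProbabilityMeasure ρ]

noncomputable abbrev pi1 (d : ℕ) : Measure (E d → ℕ) := Measure.infinitePi fun _ => ρ

noncomputable abbrev Pm : Measure (W d) := ν.prod (Measure.infinitePi fun _ => pi1 ρ d)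

lemma past {S : Type} [MeasurableSpace S] (k : ℕ) {Y : W d → S} (hY : Measurable Y)
    (h : ∀ g η η', (∀ i < k, η i = η' i) → Y (g, η) = Y (g, η')) {H : S × (E d → ℕ) → ℝ≥0∞}
    (hH : Measurable H) :
    ∫⁻ ω, H (Y ω, ω.2 k) ∂Pm ν ρ = ∫⁻ ω, ∫⁻ u, H (Y ω, u) ∂pi1 ρ d ∂Pm ν ρ := by
  rw [lintegral_prod _ (by fun_prop),
    lintegral_prod (fun ω => ∫⁻ u, H (Y ω, u) ∂pi1 ρ d)
      (hH.lintegral_prod_right'.comp hY).aemeasurable]
  exact lintegral_congr fun g => Pool.Agent.Lib.helper3.MC.indep_past _ k (fun η => Y (g, η))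
    (by fun_prop) (h g) H hH

lemma past_set (k : ℕ) {A : Set (W d)} (hA : MeasurableSet A)
    (h : ∀ g η η', (∀ i < k, η i = η' i) → ((g, η) ∈ A ↔ (g, η') ∈ A)) {B : Set (E d → ℕ)}
    (hB : MeasurableSet B) : Pm ν ρ (A ∩ {ω | ω.2 k ∈ B}) = Pm ν ρ A * pi1 ρ d B := by
  have := past ν ρ k (Y := A.indicator (1 : W d → ℝ≥0∞)) (measurable_one.indicator hA)
    (fun g η η' hη => by by_cases h1 : (g, η') ∈ A <;> simp [h1, h g η η' hη])
    (H := fun z => z.1 * B.indicator 1 z.2)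
    (measurable_fst.mul ((measurable_one.indicator hB).comp measurable_snd))
  simp only [lintegral_const_mul _ (measurable_one.indicator hB), lintegral_indicator_one hB,
    lintegral_mul_const _ (measurable_one.indicator hA), lintegral_indicator_one hA] at this
  rw [← this, ← lintegral_indicator_one (hA.inter (by measurability))]
  refine lintegral_congr fun ω => ?_
  by_cases h1 : ω ∈ A <;> by_cases h2 : ω.2 k ∈ B <;> simp [h1, h2]

variable {ν}

lemma mpΘ (hν : ∀ a, ν.map (fun g x => g (x + a)) = ν) (a : V d) :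
    MeasurePreserving (Θ a) (Pm ν ρ) (Pm ν ρ) := by
  have h1 : MeasurePreserving (fun (u : E d → ℕ) (e : E d) => u (e.1 + a, e.2)) (pi1 ρ d) (pi1 ρ d) :=
    ⟨by fun_prop, Measure.map_infinitePi_infinitePi_of_inj (f := fun e : E d => (e.1 + a, e.2))
      fun e e' h => by simpa [Prod.ext_iff] using h⟩
  have h2 : MeasurePreserving (fun (η : ℕ → E d → ℕ) k (e : E d) => η k (e.1 + a, e.2))
      (Measure.infinitePi fun _ => pi1 ρ d) (Measure.infinitePi fun _ => pi1 ρ d) :=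
    ⟨by fun_prop, by
      rw [Measure.infinitePi_map_pi (f := fun _ (u : E d → ℕ) (e : E d) => u (e.1 + a, e.2)) _
        fun _ => h1.measurable]
      simp only [h1.map_eq]⟩
  exact MeasurePreserving.prod (f := fun (g : V d → ℝ) x => g (x + a)) ⟨by fun_prop, hν a⟩ h2

lemma stat (hν : ∀ a, ν.map (fun g x => g (x + a)) = ν) (a : V d) (k : ℕ) {H : (V d → ℝ) → ℝ≥0∞}
    (hH : Measurable H) : ∫⁻ ω, H (fun x => F k ω (x + a)) ∂Pm ν ρ = ∫⁻ ω, H (F k ω) ∂Pm ν ρ := by
  rw [← (mpΘ ρ hν a).lintegral_comp (f := fun ω => H (F k ω)) (hH.comp (mF k))]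
  simp only [F_Θ]

variable (ν) in
noncomputable def bb (k : ℕ) : ℝ≥0∞ := ∫⁻ ω, ENNReal.ofReal (D (F k ω) 0) ∂Pm ν ρ

lemma mD : Measurable fun g : V d → ℝ => ENNReal.ofReal (D g 0) := by unfold D; fun_prop

lemma D0 (g : V d → ℝ) (x : V d) : 0 ≤ D g x := sum_nonneg fun _ _ => sq_nonneg _

lemma diss (hν : ∀ a, ν.map (fun g x => g (x + a)) = ν) (h1 : d * ρ.real {0}ᶜ ≤ 1 / 4) (k : ℕ) :
    ∫⁻ ω, ENNReal.ofReal (F (k + 1) ω 0 ^ 2) ∂Pm ν ρ + ENNReal.ofReal (ρ.real {0}ᶜ / 8) * bb ν ρ k ≤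
      ∫⁻ ω, ENNReal.ofReal (F k ω 0 ^ 2) ∂Pm ν ρ := by
  set α := ρ.real {0}ᶜ with hα
  have h0 : 0 ≤ α := measureReal_nonneg
  have ms : Measurable fun z : (V d → ℝ) × (E d → ℕ) => step (fun e => zt (z.2 e)) z.1 :=
    m_step (by have := mzt; fun_prop) measurable_fst
  have mH : Measurable fun z : (V d → ℝ) × (E d → ℕ) =>
      ENNReal.ofReal (step (fun e => zt (z.2 e)) z.1 0 ^ 2) := by fun_prop
  have e := past ν ρ k (mF k) (depF k) mH
  have m1 : ∀ x, Measurable fun ω : W d => ENNReal.ofReal (F k ω x ^ 2) := fun x => by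
    have := mF (d := d) k
    fun_prop
  simp only [F]
  have m2 : Measurable fun ω : W d => ENNReal.ofReal (D (F k ω) 0) := mD.comp (mF k)
  rw [e, bb, ← lintegral_const_mul _ m2, ← lintegral_add_right _ (m2.const_mul _)]
  calc _ ≤ ∫⁻ ω, (ENNReal.ofReal (1 - d * α) * ENNReal.ofReal (F k ω 0 ^ 2) +
        ∑ c, ENNReal.ofReal (α / 2) * ENNReal.ofReal (F k ω (dir c) ^ 2)) ∂Pm ν ρ := by
        refine lintegral_mono fun ω => ?_
        have := onestep' ρ (fs_single (0 : V d)) (F k ω) 0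
        simp only [ip_single, sub_zero, single_D] at this
        have hD := D0 (F k ω) 0
        refine (add_le_add_left this _).trans ?_
        rw [← ENNReal.ofReal_mul (by positivity), ← ENNReal.ofReal_add (by positivity) (by positivity),
          ← ENNReal.ofReal_mul (by linarith)]
        simp only [← ENNReal.ofReal_mul (show 0 ≤ α / 2 by positivity)]
        rw [← ENNReal.ofReal_sum_of_nonneg fun c _ => by positivity,
          ← ENNReal.ofReal_add (mul_nonneg (by linarith) (sq_nonneg _)) (by positivity)]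
        refine ENNReal.ofReal_le_ofReal ?_
        have q := Q_sq h0 h1 (F k ω) 0
        have : Q α (fun x => F k ω x ^ 2) 0 =
            (1 - d * α) * F k ω 0 ^ 2 + ∑ c, α / 2 * F k ω (dir c) ^ 2 := by
          simp only [Q, step, ← mul_sum, sum_sub_distrib, zero_add, sum_const, card_univ,
            Fintype.card_prod, Fintype.card_fin, Fintype.card_bool, nsmul_eq_mul]
          push_cast; ring
        linarith
    _ = _ := by
        rw [lintegral_add_left ((m1 0).const_mul _), lintegral_const_mul _ (m1 0),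
          lintegral_finsetSum _ fun c _ => (m1 _).const_mul _]
        have : ∀ c, ∫⁻ ω, ENNReal.ofReal (α / 2) * ENNReal.ofReal (F k ω (dir c) ^ 2) ∂Pm ν ρ =
            ENNReal.ofReal (α / 2) * ∫⁻ ω, ENNReal.ofReal (F k ω 0 ^ 2) ∂Pm ν ρ := fun c => by
          rw [lintegral_const_mul _ (m1 _), ← stat ρ hν (dir c) k
            (H := fun g => ENNReal.ofReal (g 0 ^ 2)) (by fun_prop)]
          simp only [zero_add]
        simp only [this]
        rw [← sum_mul, ← add_mul, ← ENNReal.ofReal_sum_of_nonneg fun c _ => by positivity,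
          ← ENNReal.ofReal_add (by linarith) (by positivity)]
        simp only [sum_const, card_univ, Fintype.card_prod, Fintype.card_fin, Fintype.card_bool,
          nsmul_eq_mul]
        rw [show 1 - d * α + ((d * 2 : ℕ) : ℝ) * (α / 2) = 1 by push_cast; ring]
        simp

lemma b_sum (hν : ∀ a, ν.map (fun g x => g (x + a)) = ν) (h1 : d * ρ.real {0}ᶜ ≤ 1 / 4) {M : ℝ}
    (hM : ∀ᵐ g ∂ν, ∀ x, |g x| ≤ M) :
    ENNReal.ofReal (ρ.real {0}ᶜ / 8) * ∑' k, bb ν ρ k ≤ ENNReal.ofReal (M ^ 2) := by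
  rw [← ENNReal.tsum_mul_left]
  refine ENNReal.tsum_le_of_sum_range_le fun n => ?_
  have : ∫⁻ ω, ENNReal.ofReal (F n ω 0 ^ 2) ∂Pm ν ρ +
      ∑ k ∈ range n, ENNReal.ofReal (ρ.real {0}ᶜ / 8) * bb ν ρ k ≤ ENNReal.ofReal (M ^ 2) := by
    induction n with
    | zero =>
      simp only [F, range_zero, sum_empty, add_zero]
      refine (lintegral_mono_ae (g := fun _ => ENNReal.ofReal (M ^ 2)) ?_).trans (by simp)
      filter_upwards [Measure.quasiMeasurePreserving_fst.ae hM] with ω hω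
      exact ENNReal.ofReal_le_ofReal (sq_le_sq' (abs_le.1 (hω 0)).1 (abs_le.1 (hω 0)).2)
    | succ n ih =>
      rw [sum_range_succ, add_comm (∑ k ∈ range n, _), ← add_assoc]
      exact (add_le_add_left (diss ρ hν h1 n) _).trans ih
  exact le_add_self.trans this

lemma gr_le (hν : ∀ a, ν.map (fun g x => g (x + a)) = ν) (k : ℕ) (e : E d) :
    ∫⁻ ω, ENNReal.ofReal (gr (F k ω) e ^ 2) ∂Pm ν ρ ≤ bb ν ρ k := by
  rw [bb, ← stat ρ hν e.1 k mD]
  refine lintegral_mono fun ω => ENNReal.ofReal_le_ofReal ?_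
  have := single_le_sum (f := fun c => (F k ω (0 + dir c + e.1) - F k ω (0 + e.1)) ^ 2)
    (fun _ _ => sq_nonneg _) (mem_univ (e.2, true))
  simpa [D, gr, dir, add_comm] using this

variable (ν) in
noncomputable def GG (v : V d) (m j : ℕ) : ℝ≥0∞ := ∫⁻ ω, ENNReal.ofReal
  (((Q (ρ.real {0}ᶜ))^[m] (F j ω) v - (Q (ρ.real {0}ᶜ))^[m + j] ω.1 v) ^ 2) ∂Pm ν ρ

lemma G_step (hν : ∀ a, ν.map (fun g x => g (x + a)) = ν) (v : V d) (m j : ℕ) :
    GG ν ρ v m (j + 1) ≤ GG ν ρ v (m + 1) j + ENNReal.ofReal (ρ.real {0}ᶜ / 4) *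
      (ENNReal.ofReal (∑' e, gr (qq (ρ.real {0}ᶜ) v m) e ^ 2) * bb ν ρ j) := by
  set α := ρ.real {0}ᶜ with hα
  have h0 : 0 ≤ α := measureReal_nonneg
  have ms : Measurable fun z : ((V d → ℝ) × (V d → ℝ)) × (E d → ℕ) =>
      step (fun e => zt (z.2 e)) z.1.2 := m_step (by have := mzt; fun_prop) (by fun_prop)
  have mH : Measurable fun z : ((V d → ℝ) × (V d → ℝ)) × (E d → ℕ) => ENNReal.ofReal
      (((Q α)^[m] (step (fun e => zt (z.2 e)) z.1.2) v - (Q α)^[m + (j + 1)] z.1.1 v) ^ 2) := by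
    have := mQ (d := d) α
    fun_prop
  have e := past ν ρ j (Y := fun ω => (ω.1, F j ω)) (measurable_fst.prodMk (mF j))
    (fun g η η' h => by rw [depF j g η η' h]) mH
  have m1 : ∀ e, Measurable fun ω : W d => ENNReal.ofReal (gr (F j ω) e ^ 2) := fun e => by
    have := mF (d := d) j
    unfold gr
    fun_prop
  have f2 : HasFiniteSupport fun e => gr (qq α v m) e ^ 2 := by
    simpa only [pow_two] using (fs_gr (fs_qq α v m)).fun_mul_left _
  simp only [GG, F]
  rw [e]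
  calc _ ≤ ∫⁻ ω, (ENNReal.ofReal (((Q α)^[m + 1] (F j ω) v - (Q α)^[m + 1 + j] ω.1 v) ^ 2) +
        ENNReal.ofReal (α / 4) * ∑' e, ENNReal.ofReal (gr (qq α v m) e ^ 2) *
          ENNReal.ofReal (gr (F j ω) e ^ 2)) ∂Pm ν ρ := by
        refine lintegral_mono fun ω => ?_
        have := onestep' ρ (fs_qq α v m) (F j ω) ((Q α)^[m + (j + 1)] ω.1 v)
        simp only [ip_qq] at this
        refine this.trans (ENNReal.ofReal_add_le.trans (le_of_eq ?_))
        rw [ENNReal.ofReal_mul (by positivity), ENNReal.ofReal_tsum_of_nonneg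
          (fun e => by positivity) (summable_of_hasFiniteSupport (f2.fun_mul_left _)),
          show m + (j + 1) = m + 1 + j by omega]
        simp only [ENNReal.ofReal_mul (sq_nonneg _)]
        rfl
    _ ≤ _ := by
        have m2 : Measurable fun ω : W d => ∑' e, ENNReal.ofReal (gr (qq α v m) e ^ 2) *
            ENNReal.ofReal (gr (F j ω) e ^ 2) := Measurable.tsum fun e => (m1 e).const_mul _
        rw [lintegral_add_right _ (m2.const_mul _), lintegral_const_mul _ m2,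
          lintegral_tsum fun e => ((m1 e).const_mul _).aemeasurable,
          ENNReal.ofReal_tsum_of_nonneg (fun e => sq_nonneg _) (summable_of_hasFiniteSupport f2),
          ← ENNReal.tsum_mul_right]
        gcongr with e
        rw [lintegral_const_mul _ (m1 e)]
        gcongr
        exact gr_le ρ hν j e

lemma G_sum (hν : ∀ a, ν.map (fun g x => g (x + a)) = ν) (h0 : 0 < ρ.real {0}ᶜ)
    (h1 : d * ρ.real {0}ᶜ ≤ 1 / 4) {M : ℝ} (hM : ∀ᵐ g ∂ν, ∀ x, |g x| ≤ M) (v : V d) :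
    ENNReal.ofReal (ρ.real {0}ᶜ) * ∑' k, GG ν ρ v 0 k ≤ ENNReal.ofReal (6 * M ^ 2) := by
  set α := ρ.real {0}ᶜ with hα
  set a : ℕ → ℝ≥0∞ := fun m => ENNReal.ofReal (∑' e, gr (qq α v m) e ^ 2) with ha
  have z : ∀ m, GG ν ρ v m 0 = 0 := fun m => by simp [GG, F]
  have s : ∀ j m, GG ν ρ v m (j + 1) ≤
      ENNReal.ofReal (α / 4) * ∑ p ∈ antidiagonal j, a (m + p.1) * bb ν ρ p.2 := by
    intro j
    induction j with
    | zero => intro m; simpa [z] using G_step ρ hν v m 0
    | succ j ih =>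
      intro m
      refine (G_step ρ hν v m _).trans ?_
      rw [Finset.Nat.sum_antidiagonal_succ, mul_add, add_comm]
      simp only [add_zero, ← add_assoc, add_right_comm m _ 1]
      exact add_le_add le_rfl (ih _)
  have t : ∑' j, ∑ p ∈ antidiagonal j, a p.1 * bb ν ρ p.2 = (∑' m, a m) * ∑' k, bb ν ρ k := by
    rw [← ENNReal.tsum_mul_right]
    simp only [← ENNReal.tsum_mul_left]
    rw [← ENNReal.tsum_prod' (f := fun p : ℕ × ℕ => a p.1 * bb ν ρ p.2), ← Finset.HasAntidiagonal.sigmaAntidiagonalEquivProd.tsum_eq, ENNReal.tsum_sigma']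
    refine tsum_congr fun j => ?_
    rw [tsum_fintype, ← sum_coe_sort]
    rfl
  rw [tsum_eq_zero_add' ENNReal.summable, z, zero_add]
  calc _ ≤ ENNReal.ofReal α * (ENNReal.ofReal (α / 4) *
        (ENNReal.ofReal (3 / α) * ∑' k, bb ν ρ k)) := by
        gcongr
        refine (ENNReal.tsum_le_tsum fun j => s j 0).trans ?_
        simp only [zero_add]
        rw [ENNReal.tsum_mul_left, t]
        gcongr
        exact q_sum h0 h1 v
    _ = ENNReal.ofReal 6 * (ENNReal.ofReal (α / 8) * ∑' k, bb ν ρ k) := by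
        simp only [← mul_assoc]
        rw [← ENNReal.ofReal_mul h0.le, ← ENNReal.ofReal_mul (by positivity),
          ← ENNReal.ofReal_mul (by positivity)]
        congr 2
        field_simp; ring
    _ ≤ _ := by
        rw [ENNReal.ofReal_mul (by norm_num)]
        gcongr
        exact b_sum ρ hν h1 hM

lemma pi_ne (e : E d) : pi1 ρ d {u | u e ≠ 0} = ENNReal.ofReal (ρ.real {0}ᶜ) := by
  rw [ofReal_measureReal, ← (measurePreserving_eval_infinitePi (fun _ : E d => ρ) e).measure_preimage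
    (s := {0}ᶜ) (MeasurableSet.nullMeasurableSet trivial)]
  rfl

def Bk (α δ : ℝ) (v : V d) (k : ℕ) : Set (W d) :=
  {ω | δ < |F k ω v - (Q α)^[k] ω.1 v| ∧ ∃ c, ω.2 k (ed v c) ≠ 0}

lemma mBk (α δ : ℝ) (v : V d) (k : ℕ) : MeasurableSet (Bk α δ v k) := by
  have := mF (d := d) k
  have := mQ (d := d) α k
  unfold Bk
  measurability

lemma B_sum (hν : ∀ a, ν.map (fun g x => g (x + a)) = ν) (h0 : 0 < ρ.real {0}ᶜ)
    (h1 : d * ρ.real {0}ᶜ ≤ 1 / 4) {M : ℝ} (hM : ∀ᵐ g ∂ν, ∀ x, |g x| ≤ M) (v : V d) {δ : ℝ}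
    (hδ : 0 < δ) : ∑' k, Pm ν ρ (Bk (ρ.real {0}ᶜ) δ v k) ≤
      (2 * d : ℕ) * ENNReal.ofReal (6 * M ^ 2) / ENNReal.ofReal (δ ^ 2) := by
  set α := ρ.real {0}ᶜ with hα
  have a : ∀ k, Pm ν ρ (Bk α δ v k) ≤
      (2 * d : ℕ) * (ENNReal.ofReal α * GG ν ρ v 0 k) / ENNReal.ofReal (δ ^ 2) := fun k => by
    have m0 : Measurable fun ω : W d => F k ω v - (Q α)^[k] ω.1 v := by
      have := mF (d := d) k
      have := mQ (d := d) α k
      fun_prop
    have e := past_set ν ρ k (A := {ω | δ < |F k ω v - (Q α)^[k] ω.1 v|})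
      (measurableSet_lt measurable_const m0.abs)
      (fun g η η' h => by simp only [Set.mem_ofPred_eq, depF k g η η' h])
      (B := ⋃ c, {u | u (ed v c) ≠ 0}) (by measurability)
    have b1 : pi1 ρ d (⋃ c, {u | u (ed v c) ≠ 0}) ≤ (2 * d : ℕ) * ENNReal.ofReal α := by
      refine (measure_iUnion_fintype_le _ _).trans ?_
      simp only [pi_ne]
      simp [mul_comm, hα]
    have b2 : Pm ν ρ {ω | δ < |F k ω v - (Q α)^[k] ω.1 v|} ≤
        GG ν ρ v 0 k / ENNReal.ofReal (δ ^ 2) := by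
      refine le_trans (measure_mono fun ω hω => ?_) (meas_ge_le_lintegral_div
        (f := fun ω : W d => ENNReal.ofReal ((F k ω v - (Q α)^[k] ω.1 v) ^ 2)) (ε := ENNReal.ofReal (δ ^ 2))
        (m0.pow_const 2).ennreal_ofReal.aemeasurable
        (by simpa using hδ.ne') ENNReal.ofReal_ne_top) |>.trans (by simp [GG, hα])
      refine ENNReal.ofReal_le_ofReal ?_
      rw [← sq_abs (_ - _)]
      exact pow_le_pow_left₀ hδ.le (le_of_lt hω) 2
    calc _ = _ := Eq.trans (by congr 1; ext ω; simp [Bk]) e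
      _ ≤ GG ν ρ v 0 k / ENNReal.ofReal (δ ^ 2) * ((2 * d : ℕ) * ENNReal.ofReal α) := by gcongr
      _ = _ := by simp only [div_eq_mul_inv]; ring
  refine (ENNReal.tsum_le_tsum a).trans ?_
  simp only [div_eq_mul_inv]
  rw [ENNReal.tsum_mul_right, ENNReal.tsum_mul_left, ENNReal.tsum_mul_left]
  gcongr
  exact G_sum ρ hν h0 h1 hM v

def Bad (u : E d → ℕ) (x : V d) : Prop := ∃ c, 2 ≤ u (ed x c) ∨ ∃ c', ∃ b : Bool,
  ed (if b then x else x + dir c) c' ≠ ed x c ∧ u (ed x c) ≠ 0 ∧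
    u (ed (if b then x else x + dir c) c') ≠ 0

def Δ (η : ℕ → E d → ℕ) : ℕ → V d → Prop
  | 0, _ => False
  | k + 1, x => Δ η k x ∨ Bad (η k) x ∨ ∃ c, Δ η k (x + dir c) ∧ η k (ed x c) ≠ 0

lemma mBad (x : V d) : MeasurableSet {u : E d → ℕ | Bad u x} := by
  unfold Bad
  measurability

lemma mΔ (k : ℕ) : ∀ x : V d, MeasurableSet {ω : W d | Δ ω.2 k x} := by
  induction k with
  | zero => intro x; simp [Δ]
  | succ k ih =>
    intro x
    have h1 : MeasurableSet {ω : W d | Bad (ω.2 k) x} := (mBad x).preimage (by fun_prop)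
    simp only [Δ]
    measurability

lemma depΔ (k : ℕ) (η η' : ℕ → E d → ℕ) (h : ∀ i < k, η i = η' i) : Δ η k = Δ η' k := by
  induction k with
  | zero => rfl
  | succ k ih => funext x; simp only [Δ]; rw [ih fun i hi => h i (by omega), h k (by omega)]

lemma Δ_mono (η : ℕ → E d → ℕ) (x : V d) {k l : ℕ} (h : k ≤ l) (h' : Δ η k x) : Δ η l x := by
  induction l, h using Nat.le_induction with
  | base => exact h'
  | succ l _ ih => exact Or.inl ih

lemma P_bad {ε : ℝ≥0∞} (h1 : ρ {0}ᶜ ≤ ε) (h2 : ρ (Set.Ici 2) ≤ ε ^ 2) (x : V d) :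
    pi1 ρ d {u | Bad u x} ≤ (2 * d * (1 + 4 * d) : ℕ) * ε ^ 2 := by
  have a : ∀ e : E d, pi1 ρ d {u | 2 ≤ u e} ≤ ε ^ 2 := fun e => by
    rw [← (measurePreserving_eval_infinitePi (fun _ : E d => ρ) e).measure_preimage
      (s := Set.Ici 2) (MeasurableSet.nullMeasurableSet trivial)] at h2
    exact h2
  have b : ∀ e e' : E d, pi1 ρ d {u | e' ≠ e ∧ u e ≠ 0 ∧ u e' ≠ 0} ≤ ε ^ 2 := fun e e' => by
    by_cases h : e = e'
    · simp [h]
    · have := congrArg (fun μ : Measure (ℕ × ℕ) => μ ({0}ᶜ ×ˢ {0}ᶜ))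
        (Measure.infinitePi_map_eval_prod (P := fun _ : E d => ρ) h)
      rw [Measure.map_apply (by fun_prop) (by measurability), Measure.prod_prod] at this
      refine le_trans (measure_mono fun u hu => ?_) (this.le.trans ?_)
      · exact hu.2
      · rw [pow_two]; gcongr
  simp only [Bad, Set.ofPred_exists, Set.ofPred_or]
  refine (measure_iUnion_fintype_le _ _).trans ?_
  refine (sum_le_sum (g := fun _ => ε ^ 2 + ∑ c' : Fin d × Bool, ∑ b : Bool, ε ^ 2)
    fun c _ => (measure_union_le _ _).trans (add_le_add (a _)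
      ((measure_iUnion_fintype_le _ _).trans (sum_le_sum fun c' _ =>
        (measure_iUnion_fintype_le _ _).trans (sum_le_sum fun b' _ => b _ _))))).trans (le_of_eq ?_)
  simp only [sum_const, card_univ, Fintype.card_prod, Fintype.card_fin, Fintype.card_bool,
    nsmul_eq_mul]
  push_cast; ring

variable (ν) in
lemma P_Δ {ε : ℝ≥0∞} (h1 : ρ {0}ᶜ ≤ ε) (h2 : ρ (Set.Ici 2) ≤ ε ^ 2) (k : ℕ) : ∀ x : V d,
    Pm ν ρ {ω | Δ ω.2 k x} ≤ k * ((2 * d * (1 + 4 * d) : ℕ) * ε ^ 2) * (1 + (2 * d : ℕ) * ε) ^ k := by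
  induction k with
  | zero => intro x; simp [Δ]
  | succ k ih =>
    intro x
    have a := past_set ν ρ k MeasurableSet.univ (fun _ _ _ _ => Iff.rfl) (mBad x)
    rw [Set.univ_inter, measure_univ, one_mul] at a
    have b : ∀ c, Pm ν ρ {ω | Δ ω.2 k (x + dir c) ∧ ω.2 k (ed x c) ≠ 0} ≤
        k * ((2 * d * (1 + 4 * d) : ℕ) * ε ^ 2) * (1 + (2 * d : ℕ) * ε) ^ k * ε := fun c => by
      have := past_set ν ρ k (mΔ k (x + dir c))
        (fun _ η η' h => by simp only [Set.mem_ofPred_eq, depΔ k η η' h])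
        (B := {u | u (ed x c) ≠ 0}) (by measurability)
      refine this.le.trans (mul_le_mul' (ih _) ?_)
      rw [pi_ne, ofReal_measureReal]; exact h1
    simp only [Δ, Set.ofPred_exists, Set.ofPred_or]
    refine (measure_union_le _ _).trans ((add_le_add (ih x) ((measure_union_le _ _).trans
      (add_le_add (a.le.trans (P_bad ρ h1 h2 x))
        ((measure_iUnion_fintype_le _ _).trans (sum_le_sum fun c _ => b c))))).trans ?_)
    simp only [sum_const, card_univ, Fintype.card_prod, Fintype.card_fin, Fintype.card_bool,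
      nsmul_eq_mul]
    generalize ((2 * d * (1 + 4 * d) : ℕ) : ℝ≥0∞) * ε ^ 2 = p
    have c : p ≤ p * (1 + (2 * d : ℕ) * ε) ^ (k + 1) :=
      le_mul_of_one_le_right' (one_le_pow₀ le_self_add)
    calc _ = k * p * (1 + (2 * d : ℕ) * ε) ^ (k + 1) + p := by push_cast; ring
      _ ≤ k * p * (1 + (2 * d : ℕ) * ε) ^ (k + 1) + p * (1 + (2 * d : ℕ) * ε) ^ (k + 1) := by gcongr
      _ = _ := by push_cast; ring

end Pool.Agent.H.MP_e8a7ad_pr
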