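import Mathlib
import Pool.Agent.H.MP_e8a7ad_pr.C

/-! Comparison of the continuous time process with the slotted dynamics. -/

set_option linter.unusedSectionVars false

namespace Pool.Agent.H.MP_e8a7ad_pr

open MeasureTheory ProbabilityTheory Filter Topology Finset Function
open scoped ENNReal NNReal

variable {d : ℕ}

lemma ring_at {n : ℝ≥0 → ℕ} (hm : Monotone n) (hr : ∀ t, ContinuousWithinAt n (Set.Ici t) t)
    {a b : ℝ≥0} (h : n a < n b) : ∃ τ, a < τ ∧ τ ≤ b ∧ n a < n τ ∧ ∀ s < τ, n s ≤ n a := by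
  have hne : {t | n a < n t}.Nonempty := ⟨b, h⟩
  have h1 : n a < n (sInf {t | n a < n t}) := by
    by_contra hc
    have := (hr (sInf {t | n a < n t})).preimage_mem_nhdsWithin
      ((isOpen_discrete {n (sInf {t | n a < n t})}).mem_nhds rfl)
    obtain ⟨u, hu, hu'⟩ := mem_nhdsGE_iff_exists_Ico_subset.1 this
    refine absurd (le_csInf hne fun t ht => ?_) (not_le.2 hu)
    by_contra hlt
    have : n t = _ := hu' ⟨csInf_le' ht, not_le.1 hlt⟩
    exact hc (this ▸ ht)
  refine ⟨_, ?_, csInf_le' h, h1, fun s hs => ?_⟩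
  · by_contra hc
    exact absurd (hm (not_lt.1 hc)) (not_le.2 h1)
  · by_contra hc
    exact absurd (csInf_le' (s := {t | n a < n t}) (not_le.1 hc)) (not_le.2 hs)

structure Path (N : E d → ℝ≥0 → ℕ) (f : ℝ≥0 → V d → ℝ) : Prop where
  mono : ∀ e, Monotone (N e)
  rc : ∀ e t, ContinuousWithinAt (N e) (Set.Ici t) t
  stay : ∀ v s t, s ≤ t → (∀ c, N (ed v c) t = N (ed v c) s) → f t v = f s v
  jump : ∀ x c t, 0 < t → (∀ s < t, N (ed x c) s < N (ed x c) t) →
    f t x = (leftLim (fun s => f s x) t + leftLim (fun s => f s (x + dir c)) t) / 2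

lemma ed_inj (x : V d) {c c' : Fin d × Bool} (h : ed x c = ed x c') : c = c' := by
  obtain ⟨i, b⟩ := c
  obtain ⟨j, b'⟩ := c'
  obtain rfl : i = j := congrArg Prod.snd h
  cases b <;> cases b' <;> simp_all [ed, ee_ne, eq_comm (a := x)]

lemma Path.slot {N : E d → ℝ≥0 → ℕ} {f : ℝ≥0 → V d → ℝ} (h : Path N f) {a b : ℝ≥0} (hab : a ≤ b)
    {x : V d} (hx : ¬ Bad (fun e => N e b - N e a) x) :
    f b x = step (fun e => zt (N e b - N e a)) (f a) x := by
  have sq : ∀ e s, N e b - N e a = 0 → a ≤ s → s ≤ b → N e s = N e a := fun e s h0 h1 h2 => by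
    have := h.mono e h1
    have := h.mono e h2
    omega
  by_cases hc : ∀ c, N (ed x c) b - N (ed x c) a = 0
  · simp only [step, hc, zt, if_true, zero_mul, sum_const_zero, mul_zero, add_zero]
    exact h.stay x a b hab fun c => sq _ _ (hc c) hab le_rfl
  push Not at hc
  obtain ⟨c, hc⟩ := hc
  simp only [Bad, not_exists, not_or, not_and, not_not] at hx
  obtain ⟨h1, h2⟩ := hx c
  obtain ⟨τ, t1, t2, t3, t4⟩ := ring_at (h.mono (ed x c)) (h.rc _) (a := a) (b := b) (by omega)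
  have e1 : step (fun e => zt (N e b - N e a)) (f a) x = (f a x + f a (x + dir c)) / 2 := by
    rw [step, sum_eq_single c]
    · simp only [zt, hc, if_false]; ring
    · intro c' _ hc'
      have := h2 c' true (fun he => hc' (ed_inj x he)) hc
      simp only [if_true] at this
      simp [zt, this]
    · simp
  have e2 : ∀ (β : Bool), leftLim (fun s => f s (if β then x else x + dir c)) τ =
      f a (if β then x else x + dir c) := fun β => by
    have := nhdsLT_neBot_of_exists_lt ⟨a, t1⟩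
    refine leftLim_eq_of_tendsto (tendsto_const_nhds.congr' ?_)
    filter_upwards [Ico_mem_nhdsLT t1] with s hs
    refine (h.stay _ a s hs.1 fun c' => ?_).symm
    by_cases he : ed (if β then x else x + dir c) c' = ed x c
    · rw [he]; exact le_antisymm (t4 s hs.2) (h.mono _ hs.1)
    · exact sq _ _ (h2 c' β he hc) hs.1 (hs.2.le.trans t2)
  have e3 := h.jump x c τ (lt_of_le_of_lt zero_le t1) fun s hs => (t4 s hs).trans_lt t3
  have e4 := e2 true
  have e5 := e2 false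
  simp only [if_true, Bool.false_eq_true, if_false] at e4 e5
  rw [e1, ← e4, ← e5, ← e3]
  refine h.stay x τ b t2 fun c' => ?_
  by_cases he : ed x c' = ed x c
  · rw [he]
    have := h.mono (ed x c) t2
    omega
  · have := h2 c' true he hc
    simp only [if_true] at this
    rw [sq _ _ this hab le_rfl, sq _ _ this t1.le t2]

noncomputable def tm (n k : ℕ) : ℝ≥0 := (k : ℝ≥0) / n

lemma tm_mono (n : ℕ) : Monotone (tm n) := fun a b h => by unfold tm; gcongr

noncomputable def inc (N : E d → ℝ≥0 → ℕ) (n : ℕ) : ℕ → E d → ℕ :=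
  fun k e => N e (tm n (k + 1)) - N e (tm n k)

lemma Path.agree {N : E d → ℝ≥0 → ℕ} {f : ℝ≥0 → V d → ℝ} (h : Path N f) (n k : ℕ) :
    ∀ x, ¬ Δ (inc N n) k x → F k (f 0, inc N n) x = f (tm n k) x := by
  induction k with
  | zero => intro x _; simp [F, tm]
  | succ k ih =>
    intro x hx
    simp only [Δ, not_or, not_exists, not_and, not_not] at hx
    rw [h.slot (tm_mono n k.le_succ) hx.2.1]
    simp only [F, step, ih x hx.1]
    congr 2
    refine sum_congr rfl fun c _ => ?_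
    by_cases hc : Δ (inc N n) k (x + dir c)
    · have := hx.2.2 c hc
      simp only [inc] at this ⊢
      simp [this, zt]
    · rw [ih _ hc]; rfl

lemma bc {Ω : Type*} [MeasurableSpace Ω] {P : Measure Ω} {A : ℕ → Set Ω} {B D : ℕ → ℕ → Set Ω}
    {C : ℝ≥0∞} (hC : C ≠ ⊤) (hB : ∀ᶠ n in atTop, ∑' j, P (B n j) ≤ C)
    (hD : ∀ j, Tendsto (fun n => P (D n j)) atTop (𝓝 0))
    (hA : ∀ j, ∀ ω ∈ A j, ∀ᶠ n in atTop, ω ∈ B n j ∪ D n j) :
    ∀ᵐ ω ∂P, ∀ᶠ j in atTop, ω ∉ A j := by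
  refine ae_eventually_notMem (ne_top_of_le_ne_top hC (ENNReal.tsum_le_of_sum_range_le fun m => ?_))
  set A' : ℕ → ℕ → Set Ω := fun j k => {ω | ∀ n ≥ k, ω ∈ B n j ∪ D n j} with hA'
  have h1 : ∀ j, Tendsto (fun k => P (A' j k)) atTop (𝓝 (P (⋃ k, A' j k))) := fun j =>
    tendsto_measure_iUnion_atTop fun a b hab ω hω n hn => hω n (hab.trans hn)
  refine (sum_le_sum fun j _ => measure_mono (t := ⋃ k, A' j k) fun ω hω =>
    Set.mem_iUnion.2 (eventually_atTop.1 (hA j ω hω))).trans ?_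
  refine le_of_tendsto' (tendsto_finsetSum _ fun j _ => h1 j) fun k => ?_
  have h2 : Tendsto (fun n => C + ∑ j ∈ range m, P (D n j)) atTop (𝓝 (C + ∑ j ∈ range m, 0)) :=
    tendsto_const_nhds.add (tendsto_finsetSum _ fun j _ => hD j)
  simp only [sum_const_zero, add_zero] at h2
  refine ge_of_tendsto h2 ?_
  filter_upwards [hB, eventually_ge_atTop k] with n hn hk
  refine (sum_le_sum fun j _ => (measure_mono (s := A' j k) (t := B n j ∪ D n j)
    fun ω hω => hω n hk).trans (measure_union_le _ _)).trans ?_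
  rw [sum_add_distrib]
  exact add_le_add_left ((ENNReal.sum_le_tsum _).trans hn) _

lemma po_ne (r : ℝ≥0) : (poissonMeasure r).real {0}ᶜ = 1 - Real.exp (-r) := by
  rw [probReal_compl_eq_one_sub (by trivial), poissonMeasure_real_singleton]; simp

lemma po_le (r : ℝ≥0) : (poissonMeasure r).real {0}ᶜ ≤ r := by
  rw [po_ne]; linarith [Real.add_one_le_exp (-r)]

lemma po_ge {r : ℝ≥0} (h : r ≤ 1) : (r : ℝ) / 2 ≤ (poissonMeasure r).real {0}ᶜ := by
  rw [po_ne]
  have h1 := Real.add_one_le_exp r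
  have h2 : Real.exp (-r) * Real.exp r = 1 := by rw [← Real.exp_add]; simp
  have h3 := Real.exp_pos (-r)
  have h4 : (r : ℝ) ≤ 1 := h
  have h5 := r.coe_nonneg
  have h6 : Real.exp (-r) * (r + 1) ≤ 1 := by nlinarith
  nlinarith

lemma po_two (r : ℝ≥0) : poissonMeasure r (Set.Ici 2) ≤ (r : ℝ≥0∞) ^ 2 := by
  have e : (Set.Ici 2 : Set ℕ) = ({0} ∪ {1})ᶜ := by ext n; simp; omega
  rw [← ofReal_measureReal, e, probReal_compl_eq_one_sub (by trivial),
    measureReal_union (by simp) (by trivial), poissonMeasure_real_singleton,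
    poissonMeasure_real_singleton, ← ENNReal.ofReal_coe_nnreal, ← ENNReal.ofReal_pow r.coe_nonneg]
  refine ENNReal.ofReal_le_ofReal ?_
  have h1 := Real.add_one_le_exp (-r)
  have h5 := r.coe_nonneg
  simp only [pow_zero, Nat.factorial_zero, pow_one, Nat.factorial_one, Nat.cast_one, div_one]
  nlinarith

lemma Q_sh (α : ℝ) (j : ℕ) (g : V d → ℝ) (a : V d) :
    (Q α)^[j] (fun x => g (x + a)) = fun x => (Q α)^[j] g (x + a) := by
  induction j with
  | zero => rfl
  | succ j ih =>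
    funext x
    simp only [iterate_succ_apply', ih]
    simp only [Q, step, add_right_comm x a]

lemma erg (hd : 1 ≤ d) {ν : Measure (V d → ℝ)} [IsProbabilityMeasure ν]
    (hν : ∀ a, ν.map (fun g x => g (x + a)) = ν) {M : ℝ} (hM : ∀ᵐ g ∂ν, ∀ x, |g x| ≤ M) (v : V d) :
    ∀ᵐ g ∂ν, ∃ l, Tendsto (fun j => (Q (1 / (2 * d)))^[j] g v) atTop (𝓝 l) := by
  have : Nonempty (Fin d) := ⟨⟨0, hd⟩⟩
  have hd' : (0 : ℝ) < d := by exact_mod_cast hd
  set σ : Fin d × Bool → (V d → ℝ) → V d → ℝ := fun c g x => g (x + dir c) with hσ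
  have e : ∀ j g, (T σ)^[j] (fun g => max (-|M|) (min |M| (g v))) g =
      (Q (1 / (2 * d)))^[j] (fun x => max (-|M|) (min |M| (g x))) v := by
    intro j
    induction j with
    | zero => intro g; rfl
    | succ j ih =>
      intro g
      simp only [iterate_succ_apply', T, ih]
      simp only [hσ, Q_sh _ j (fun x => max (-|M|) (min |M| (g x)))]
      generalize (Q (1 / (2 * d)))^[j] _ = h
      simp only [Q, step, ← mul_sum, sum_sub_distrib, sum_const, card_univ, Fintype.card_prod,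
        Fintype.card_fin, Fintype.card_bool, nsmul_eq_mul]
      push_cast; field_simp; ring
  have := rota (ν := ν) (σ := σ) (fun c => ⟨by fun_prop, hν _⟩)
    (Equiv.prodCongr (Equiv.refl _) Equiv.boolNot)
    (fun ⟨i, b⟩ g => by funext x; cases b <;> simp [hσ, dir]) (abs_nonneg M)
    (F := fun g => max (-|M|) (min |M| (g v))) ⟨by fun_prop, fun g => abs_le.2
      ⟨le_max_left _ _, max_le (by linarith [abs_nonneg M]) (min_le_left _ _)⟩⟩
  filter_upwards [this, hM] with g h1 h2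
  simp only [e] at h1
  have : (fun x => max (-|M|) (min |M| (g x))) = g := funext fun x => by
    have := abs_le.1 ((h2 x).trans (le_abs_self M))
    rw [min_eq_right this.2, max_eq_right this.1]
  rwa [this] at h1

def AA (δ : ℝ) (v : V d) (j : ℕ) (N : E d → ℝ≥0 → ℕ) (f : ℝ≥0 → V d → ℝ) : Prop :=
  Path N f ∧ ∃ (l B : ℝ) (t σ : ℝ≥0),
    (∀ i, |(Q (1 / (2 * d)))^[i] (f 0) v - l| ≤ δ + B * (1 / 2) ^ i) ∧ 0 ≤ B ∧
    B * Real.exp (-(j / 2)) ≤ δ ∧ t < σ ∧ (j : ℝ≥0) < σ ∧ σ ≤ j + 1 ∧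
    (∀ s < σ, ∑ c, N (ed v c) s < ∑ c, N (ed v c) σ) ∧ ∀ s, t ≤ s → s < σ → 3 * δ < |f s v - l|

lemma AA.ev (hd : 1 ≤ d) {δ : ℝ} {v : V d} {j : ℕ} {N : E d → ℝ≥0 → ℕ} {f : ℝ≥0 → V d → ℝ}
    (h : AA δ v j N f) : ∀ᶠ n : ℕ in atTop,
      (∃ k, k / n = j ∧ (f 0, inc N n) ∈ Bk ((poissonMeasure (1 / n)).real {0}ᶜ) δ v k) ∨
        Δ (inc N n) ((j + 1) * n) v := by
  obtain ⟨hp, l, B, t, σ, h1, h2, h3, h4, h5, h6, h7, h8⟩ := h
  have h4' : (0 : ℝ) < σ - t := sub_pos.2 (by exact_mod_cast h4)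
  filter_upwards [eventually_ge_atTop (4 * d),
    (tendsto_natCast_atTop_atTop (R := ℝ)).eventually_ge_atTop (1 / (σ - t))] with n hn hn'
  have n0 : 0 < n := by omega
  have n1 : (0 : ℝ≥0) < n := by exact_mod_cast n0
  have n2 : (0 : ℝ) < n := by exact_mod_cast n0
  have k1 : j * n < ⌈σ * n⌉₊ := Nat.lt_ceil.2 (by push_cast; gcongr)
  have k2 : ⌈σ * n⌉₊ ≤ (j + 1) * n := Nat.ceil_le.2 (by push_cast; gcongr)
  obtain ⟨k, hk⟩ : ∃ k, ⌈σ * n⌉₊ = k + 1 := Nat.exists_eq_add_one.2 (by omega)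
  have a1 : tm n k < σ := by rw [tm, div_lt_iff₀ n1]; exact Nat.lt_ceil.1 (by omega)
  have a2' : σ * n ≤ ((k + 1 : ℕ) : ℝ≥0) := hk ▸ Nat.le_ceil _
  have a2 : σ ≤ tm n (k + 1) := by rw [tm, le_div_iff₀ n1]; exact a2'
  have a3 : t ≤ tm n k := by
    rw [tm, le_div_iff₀ n1]
    have : (σ : ℝ) * n ≤ k + 1 := by exact_mod_cast a2'
    rw [div_le_iff₀ h4'] at hn'
    have : (t : ℝ) * n ≤ k := by linarith
    exact_mod_cast this
  refine or_iff_not_imp_right.2 fun hΔ => ⟨k, Nat.div_eq_of_lt_le (by omega) (by omega), ?_, ?_⟩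
  · rw [hp.agree n k v fun h => hΔ (Δ_mono _ _ (by omega) h)]
    set α := (poissonMeasure (1 / n)).real {0}ᶜ
    have b1 : α ≤ 1 / n := by simpa [α] using po_le (1 / n)
    have b2 : 1 / n / 2 ≤ α := by
      simpa [α] using po_ge (r := 1 / n) (by rw [div_le_one n1]; exact_mod_cast n0)
    have b0 : 0 ≤ α := measureReal_nonneg
    have d1 : (1 : ℝ) ≤ d := by exact_mod_cast hd
    have d2 : (4 * d : ℝ) ≤ n := by exact_mod_cast hn
    have b3 : d * α ≤ 1 / 4 := by
      rw [le_div_iff₀ n2] at b1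
      nlinarith
    have c1 := mix b0 b3 hd v k (f 0) B h1
    have c2 : (1 - d * α) ^ k ≤ Real.exp (-(j / 2)) := by
      calc (1 - d * α) ^ k ≤ Real.exp (-(d * α)) ^ k := by
            gcongr
            · linarith
            · linarith [Real.add_one_le_exp (-(d * α))]
        _ ≤ _ := by
            rw [← Real.exp_nat_mul, Real.exp_le_exp]
            have e1 : (j * n : ℝ) ≤ k := by exact_mod_cast (by omega : j * n ≤ k)
            rw [div_div, div_le_iff₀ (by positivity)] at b2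
            have e2 : (0 : ℝ) ≤ j := j.cast_nonneg
            have e3 : k * α ≤ k * (d * α) := by gcongr; nlinarith
            nlinarith
    have c3 := h8 _ a3 a1
    have c4 := mul_le_mul_of_nonneg_left c2 h2
    have c5 := abs_sub_le (f (tm n k) v) ((Q α)^[k] (f 0) v) l
    dsimp only
    linarith
  · by_contra hc
    push Not at hc
    refine absurd (h7 _ a1) (not_lt.2 (sum_le_sum fun c _ => ?_))
    have := hc c
    have := hp.mono (ed v c) a2
    simp only [inc] at *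
    omega

lemma conv (hd : 1 ≤ d) {v : V d} {N : E d → ℝ≥0 → ℕ} {f : ℝ≥0 → V d → ℝ} (hp : Path N f) {l : ℝ}
    (hl : Tendsto (fun j => (Q (1 / (2 * d)))^[j] (f 0) v) atTop (𝓝 l))
    (hu : ∀ e t, ∃ b, N e t < N e b)
    (h : ∀ m : ℕ, ∀ᶠ j in atTop, ¬ AA (1 / (m + 1 : ℝ)) v j N f) :
    Tendsto (fun t => f t v) atTop (𝓝 l) := by
  rw [Metric.tendsto_atTop]
  intro ε hε
  obtain ⟨m, hm⟩ := exists_nat_one_div_lt (show 0 < ε / 3 by positivity)
  have hδ : (0 : ℝ) < 1 / (m + 1 : ℝ) := by positivity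
  have hm' := h m
  set δ : ℝ := 1 / (m + 1 : ℝ)
  obtain ⟨J, hJ⟩ := Metric.tendsto_atTop.1 hl δ hδ
  obtain ⟨C, hC⟩ := (hl.sub_const l).abs.bddAbove_range
  have hC' : ∀ i, |(Q (1 / (2 * d)))^[i] (f 0) v - l| ≤ C := fun i => hC ⟨i, rfl⟩
  have C0 : 0 ≤ C := (abs_nonneg _).trans (hC' 0)
  have h1 : ∀ i, |(Q (1 / (2 * d)))^[i] (f 0) v - l| ≤ δ + C * 2 ^ J * (1 / 2) ^ i := fun i => by
    rcases le_total J i with hi | hi
    · exact (hJ i hi).le.trans (le_add_of_nonneg_right (by positivity))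
    · have : (1 : ℝ) ≤ 2 ^ J * (1 / 2) ^ i := by
        rw [one_div, inv_pow, ← div_eq_mul_inv, one_le_div (by positivity)]
        exact pow_le_pow_right₀ one_le_two hi
      have := hC' i
      nlinarith
  have h2 : Tendsto (fun j : ℕ => C * 2 ^ J * Real.exp (-(j / 2))) atTop (𝓝 (C * 2 ^ J * 0)) :=
    (Real.tendsto_exp_neg_atTop_nhds_zero.comp
      (tendsto_natCast_atTop_atTop.atTop_div_const two_pos)).const_mul _
  obtain ⟨j0, hj0⟩ := eventually_atTop.1 (hm'.and (h2.eventually_le_const (by simpa using hδ)))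
  refine ⟨j0, fun t ht => ?_⟩
  rw [Real.dist_eq]
  refine lt_of_le_of_lt (not_lt.1 fun hc : 3 * δ < _ => ?_) (by linarith)
  have mo : Monotone fun s => ∑ c, N (ed v c) s := fun a b hab =>
    sum_le_sum fun c _ => hp.mono _ hab
  obtain ⟨b, hb⟩ := hu (ed v (⟨0, hd⟩, true)) t
  have hb' : t ≤ b := by
    by_contra hc
    exact absurd (hp.mono _ (not_le.1 hc).le) (not_le.2 hb)
  obtain ⟨σ, s1, -, s3, s4⟩ := ring_at mo 
    (fun t => tendsto_finsetSum _ fun c _ => hp.rc (ed v c) t) (a := t) (b := b)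
    (sum_lt_sum (fun c _ => hp.mono _ hb') ⟨_, mem_univ _, hb⟩)
  have k1 : j0 < ⌈σ⌉₊ := Nat.lt_ceil.2 (lt_of_le_of_lt ht s1)
  obtain ⟨j, hj⟩ : ∃ k, ⌈σ⌉₊ = k + 1 := Nat.exists_eq_add_one.2 (by omega)
  refine (hj0 j (by omega)).1 ⟨hp, l, C * 2 ^ J, t, σ, h1, by positivity, (hj0 j (by omega)).2, s1,
    Nat.lt_ceil.1 (by omega), ?_, fun s hs => (s4 s hs).trans_lt s3, fun s hs hs' => ?_⟩
  · have := Nat.le_ceil σ
    rw [hj] at this
    exact_mod_cast this
  · rw [hp.stay v t s hs fun c => ?_]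
    · exact hc
    · exact ((sum_eq_sum_iff_of_le fun c _ => hp.mono (ed v c) hs).1
        (le_antisymm (mo hs) (s4 s hs')) c (mem_univ _)).symm

end Pool.Agent.H.MP_e8a7ad_pr
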